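import Pool.Agent.Lib.MP_58a483_pr.H80Prob

/-!
A reverse hypercontractive inequality for resampling random groups of coordinates.
-/

namespace Pool.Agent.FS.FivePoint

open Finset Pool.Agent.Lib.MP_58a483_pr.H80

lemma fp_pow_a (m : ℕ) {x : ℝ} (hx : -1 ≤ x) :
    1 + ((m : ℝ) + 1) * x + m * x ^ 2 ≤ (1 + x) ^ (m + 1) := by
  have h := one_add_mul_le_pow (a := x) (by linarith) m
  have h0 : 0 ≤ 1 + x := by linarith
  have := mul_le_mul_of_nonneg_right h h0
  rw [pow_succ (1 + x)]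
  nlinarith

lemma fp_pow_b (m : ℕ) {x : ℝ} (hx : 0 ≤ x) :
    1 + ((m : ℝ) + 1) * x + ((m : ℝ) + 1) * m / 2 * x ^ 2 ≤ (1 + x) ^ (m + 1) := by
  induction m with
  | zero => simp
  | succ m ih =>
    have h0 : 0 ≤ 1 + x := by linarith
    have h1 := mul_le_mul_of_nonneg_right ih h0
    have h2 : 0 ≤ ((m : ℝ) + 1) * m / 2 * x ^ 3 := by positivity
    rw [pow_succ (1 + x) (m + 1)]
    push_cast
    nlinarith

lemma fp_quad {A B M x y : ℝ} (hA : 0 < A) (h : M ^ 2 ≤ 4 * A * B) :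
    0 ≤ A * x ^ 2 + B * y ^ 2 + M * (x * y) := by
  have h1 : 0 ≤ (4 * A * B - M ^ 2) * y ^ 2 := mul_nonneg (by linarith) (sq_nonneg _)
  have h2 : 0 ≤ 4 * A * (A * x ^ 2 + B * y ^ 2 + M * (x * y)) := by
    nlinarith [sq_nonneg (2 * A * x + M * y)]
  by_contra hn
  have := mul_neg_of_pos_of_neg (show 0 < 4 * A by linarith) (not_le.1 hn)
  linarith

lemma fp_half {m : ℕ} {θ x y : ℝ} (h0 : 0 < θ) (h1 : θ ≤ 1)
    (hm : (m : ℝ) + 1 ≤ 2 * θ ^ 2 * (m : ℝ) ^ 2) (hx : 0 ≤ x) (hy : -1 ≤ y) :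
    0 ≤ (1 - θ) * (((m : ℝ) + 1) * (x * y)) +
      θ * (((1 + x) ^ (m + 1) - 1 - ((m : ℝ) + 1) * x) +
        ((1 + y) ^ (m + 1) - 1 - ((m : ℝ) + 1) * y)) := by
  have m0 : (0 : ℝ) ≤ m := Nat.cast_nonneg m
  have m1 : (0 : ℝ) < m := by
    rcases m0.eq_or_lt with h | h
    · rw [← h] at hm; norm_num at hm
    · exact h
  have a := fp_pow_b m hx
  have b := fp_pow_a m hy
  have q := fp_quad (A := θ * (((m : ℝ) + 1) * m / 2)) (B := θ * m)
    (M := (1 - θ) * ((m : ℝ) + 1)) (x := x) (y := y) (by positivity) (by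
      have u : ((1 - θ) * ((m : ℝ) + 1)) ^ 2 ≤ ((m : ℝ) + 1) ^ 2 := by
        have : (1 - θ) * ((m : ℝ) + 1) ≤ (m : ℝ) + 1 := by nlinarith
        exact pow_le_pow_left₀ (mul_nonneg (by linarith) (by linarith)) this 2
      have w := mul_le_mul_of_nonneg_left hm (show (0 : ℝ) ≤ (m : ℝ) + 1 by linarith)
      nlinarith)
  have c := mul_le_mul_of_nonneg_left (add_le_add a b) h0.le
  nlinarith

lemma fp_pt {m : ℕ} {θ x y : ℝ} (h0 : 0 < θ) (h1 : θ ≤ 1)
    (hm : (m : ℝ) + 1 ≤ 2 * θ ^ 2 * (m : ℝ) ^ 2) (hx : -1 ≤ x) (hy : -1 ≤ y) :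
    0 ≤ (1 - θ) * (((m : ℝ) + 1) * (x * y)) +
      θ * (((1 + x) ^ (m + 1) - 1 - ((m : ℝ) + 1) * x) +
        ((1 + y) ^ (m + 1) - 1 - ((m : ℝ) + 1) * y)) := by
  by_cases h : 0 ≤ x
  · exact fp_half h0 h1 hm h hy
  · by_cases k : 0 ≤ y
    · have := fp_half h0 h1 hm k hx
      rw [mul_comm y x] at this
      linarith
    · have a := fp_pow_a m hx
      have b := fp_pow_a m hy
      have m0 : (0 : ℝ) ≤ m := Nat.cast_nonneg m
      have c : 0 ≤ x * y := mul_nonneg_of_nonpos_of_nonpos (not_le.1 h).le (not_le.1 k).le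
      have d : 0 ≤ (m : ℝ) * x ^ 2 := by positivity
      have e : 0 ≤ (m : ℝ) * y ^ 2 := by positivity
      refine add_nonneg (mul_nonneg (by linarith) (by positivity)) (mul_nonneg h0.le ?_)
      linarith

variable {ι κ : Type} [DecidableEq ι] [DecidableEq κ]

lemma fp_one_norm {m : ℕ} {θ p : ℝ} (h0 : 0 < θ) (h1 : θ ≤ 1)
    (hm : (m : ℝ) + 1 ≤ 2 * θ ^ 2 * (m : ℝ) ^ 2) (p0 : 0 ≤ p) (p1 : p ≤ 1) (B : Finset ι)
    (φ ψ : Finset ι → ℝ) (hφ : ∀ b, 0 ≤ φ b) (hψ : ∀ b, 0 ≤ ψ b) (a1 : Ex B p φ = 1)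
    (b1 : Ex B p ψ = 1) :
    1 ≤ (1 - θ) * Ex B p (fun b => φ b ^ (m + 1) * ψ b ^ (m + 1)) +
      θ * (Ex B p (fun b => φ b ^ (m + 1)) * Ex B p (fun b => ψ b ^ (m + 1))) := by
  have lin : ∀ χ : Finset ι → ℝ, Ex B p χ = 1 →
      Ex B p (fun b => 1 + ((m : ℝ) + 1) * (χ b - 1)) = 1 := fun χ h => by
    rw [Ex_add, Ex_mul_left, Ex_sub, Ex_const, h]; ring
  have ge : ∀ χ : Finset ι → ℝ, (∀ b, 0 ≤ χ b) → Ex B p χ = 1 →
      1 ≤ Ex B p (fun b => χ b ^ (m + 1)) := fun χ h k => by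
    rw [← lin χ k]
    refine Ex_mono p0 p1 fun b _ => ?_
    have := one_add_mul_le_pow (a := χ b - 1) (by linarith [h b]) (m + 1)
    rw [show 1 + (χ b - 1) = χ b by ring] at this
    push_cast at this
    exact this
  have g1 := ge φ hφ a1
  have g2 := ge ψ hψ b1
  have key : Ex B p (fun b => (1 + θ) + ((m : ℝ) + 1) * φ b + ((m : ℝ) + 1) * ψ b -
        2 * ((m : ℝ) + 1)) ≤
      Ex B p (fun b => (1 - θ) * (φ b ^ (m + 1) * ψ b ^ (m + 1)) +
        θ * (φ b ^ (m + 1) + ψ b ^ (m + 1))) := by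
    refine Ex_mono p0 p1 fun b _ => ?_
    have u := fp_pt (x := φ b - 1) (y := ψ b - 1) h0 h1 hm (by linarith [hφ b])
      (by linarith [hψ b])
    rw [show 1 + (φ b - 1) = φ b by ring, show 1 + (ψ b - 1) = ψ b by ring] at u
    have w := one_add_mul_le_pow (a := φ b * ψ b - 1)
      (by linarith [mul_nonneg (hφ b) (hψ b)]) (m + 1)
    rw [show 1 + (φ b * ψ b - 1) = φ b * ψ b by ring, mul_pow] at w
    push_cast at w
    have z := mul_le_mul_of_nonneg_left w (show 0 ≤ 1 - θ by linarith)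
    nlinarith
  rw [Ex_sub, Ex_add, Ex_add, Ex_mul_left, Ex_mul_left, Ex_const, Ex_const, a1, b1, Ex_add,
    Ex_mul_left, Ex_mul_left, Ex_add] at key
  have t := mul_nonneg h0.le (mul_nonneg (sub_nonneg.2 g1) (sub_nonneg.2 g2))
  nlinarith

lemma fp_one {m : ℕ} {θ p : ℝ} (h0 : 0 < θ) (h1 : θ ≤ 1)
    (hm : (m : ℝ) + 1 ≤ 2 * θ ^ 2 * (m : ℝ) ^ 2) (p0 : 0 ≤ p) (p1 : p ≤ 1) (B : Finset ι)
    (φ ψ : Finset ι → ℝ) (hφ : ∀ b, 0 ≤ φ b) (hψ : ∀ b, 0 ≤ ψ b) :
    Ex B p φ ^ (m + 1) * Ex B p ψ ^ (m + 1) ≤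
      (1 - θ) * Ex B p (fun b => φ b ^ (m + 1) * ψ b ^ (m + 1)) +
      θ * (Ex B p (fun b => φ b ^ (m + 1)) * Ex B p (fun b => ψ b ^ (m + 1))) := by
  have n1 : 0 ≤ Ex B p (fun b => φ b ^ (m + 1) * ψ b ^ (m + 1)) :=
    Ex_nonneg p0 p1 fun b _ => mul_nonneg (pow_nonneg (hφ b) _) (pow_nonneg (hψ b) _)
  have n2 : 0 ≤ Ex B p (fun b => φ b ^ (m + 1)) := Ex_nonneg p0 p1 fun b _ => pow_nonneg (hφ b) _
  have n3 : 0 ≤ Ex B p (fun b => ψ b ^ (m + 1)) := Ex_nonneg p0 p1 fun b _ => pow_nonneg (hψ b) _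
  have n4 := add_nonneg (mul_nonneg (show 0 ≤ 1 - θ by linarith) n1)
    (mul_nonneg h0.le (mul_nonneg n2 n3))
  rcases (Ex_nonneg (E := B) p0 p1 fun b _ => hφ b).eq_or_lt with ha | ha
  · rw [← ha, zero_pow (by omega), zero_mul]; exact n4
  rcases (Ex_nonneg (E := B) p0 p1 fun b _ => hψ b).eq_or_lt with hb | hb
  · rw [← hb, zero_pow (by omega), mul_zero]; exact n4
  generalize hα : Ex B p φ = α at *
  generalize hβ : Ex B p ψ = β at *
  have h := fp_one_norm h0 h1 hm p0 p1 B (fun b => α⁻¹ * φ b) (fun b => β⁻¹ * ψ b)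
    (fun b => mul_nonneg (inv_nonneg.2 ha.le) (hφ b))
    (fun b => mul_nonneg (inv_nonneg.2 hb.le) (hψ b))
    (by rw [Ex_mul_left, hα, inv_mul_cancel₀ ha.ne']) (by rw [Ex_mul_left, hβ, inv_mul_cancel₀ hb.ne'])
  have e1 : Ex B p (fun b => (α⁻¹ * φ b) ^ (m + 1) * (β⁻¹ * ψ b) ^ (m + 1)) =
      (α⁻¹ ^ (m + 1) * β⁻¹ ^ (m + 1)) * Ex B p (fun b => φ b ^ (m + 1) * ψ b ^ (m + 1)) := by
    rw [← Ex_mul_left]
    exact Ex_congr fun b _ => by rw [mul_pow, mul_pow]; ring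
  have e2 : ∀ (γ : ℝ) (χ : Finset ι → ℝ), Ex B p (fun b => (γ * χ b) ^ (m + 1)) =
      γ ^ (m + 1) * Ex B p (fun b => χ b ^ (m + 1)) := fun γ χ => by
    rw [← Ex_mul_left]
    exact Ex_congr fun b _ => by rw [mul_pow]
  rw [e1, e2, e2] at h
  have pa : 0 < α ^ (m + 1) := pow_pos ha _
  have pb : 0 < β ^ (m + 1) := pow_pos hb _
  have k := mul_le_mul_of_nonneg_left h (mul_pos pa pb).le
  refine le_trans (le_of_eq (mul_one _).symm) (k.trans (le_of_eq ?_))
  rw [inv_pow, inv_pow]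
  field_simp

lemma fp_union {A B : Finset ι} (h : Disjoint A B) (p : ℝ) (F : Finset ι → ℝ) :
    Ex (A ∪ B) p F = Ex B p (fun b => Ex A p fun a => F (a ∪ b)) := by
  induction B using Finset.induction_on generalizing F with
  | empty => simp [Ex_empty]
  | insert e B he ih =>
    have h1 := disjoint_insert_right.1 h
    rw [union_insert, Ex_insert (by simp [h1.1, he]), Ex_insert he, ih h1.2, ih h1.2]
    simp only [union_insert]

lemma fp_comm (A : Finset ι) (B : Finset κ) (p q : ℝ) (F : Finset ι → Finset κ → ℝ) :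
    Ex A p (fun a => Ex B q fun b => F a b) = Ex B q (fun b => Ex A p fun a => F a b) := by
  induction B using Finset.induction_on generalizing F with
  | empty => simp [Ex_empty]
  | insert e B he ih =>
    simp only [Ex_insert he]
    rw [Ex_add, Ex_mul_left, Ex_mul_left, ih, ih]

/-- the coordinates whose group lies in `U` are taken from the second sample -/
def mix (top : ι → κ) (U : Finset κ) (ω ω' : Finset ι) : Finset ι :=
  ω.filter (fun e => top e ∉ U) ∪ ω'.filter fun e => top e ∈ U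

lemma mem_mix {top : ι → κ} {U : Finset κ} {ω ω' : Finset ι} {e : ι} :
    e ∈ mix top U ω ω' ↔ (e ∈ ω ∧ top e ∉ U) ∨ (e ∈ ω' ∧ top e ∈ U) := by simp [mix]

theorem fp_rh {m : ℕ} {θ p : ℝ} (h0 : 0 < θ) (h1 : θ ≤ 1)
    (hm : (m : ℝ) + 1 ≤ 2 * θ ^ 2 * (m : ℝ) ^ 2) (p0 : 0 ≤ p) (p1 : p ≤ 1) (top : ι → κ)
    (T : Finset κ) : ∀ (E : Finset ι), (∀ e ∈ E, top e ∈ T) → ∀ f g : Finset ι → ℝ,
      (∀ ω, 0 ≤ f ω) → (∀ ω, 0 ≤ g ω) →
      Ex E p f ^ (m + 1) * Ex E p g ^ (m + 1) ≤ Ex T θ fun U => Ex E p fun ω => Ex E p fun ω' =>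
        f ω ^ (m + 1) * g (mix top U ω ω') ^ (m + 1) := by
  induction T using Finset.induction_on with
  | empty =>
    intro E hE f g _ _
    have : E = ∅ := eq_empty_of_forall_notMem fun e he => by simpa using hE e he
    subst this
    simp [Ex_empty, mix]
  | insert v T hv ih =>
    intro E hE f g hf hg
    obtain ⟨A, B, hd, rfl, hA, hB⟩ : ∃ A B : Finset ι, Disjoint A B ∧ E = A ∪ B ∧
        (∀ e ∈ A, top e ∈ T) ∧ ∀ e ∈ B, top e = v := by
      refine ⟨E.filter fun e => ¬ top e = v, E.filter fun e => top e = v, ?_, ?_, ?_, ?_⟩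
      · exact disjoint_left.2 fun e a b => (mem_filter.1 a).2 (mem_filter.1 b).2
      · ext e
        simp only [mem_union, mem_filter]
        tauto
      · intro e he
        rcases mem_insert.1 (hE e (mem_filter.1 he).1) with h | h
        · exact absurd h (mem_filter.1 he).2
        · exact h
      · exact fun e he => (mem_filter.1 he).2
    have I := fun b b' => ih A hA (fun a => f (a ∪ b)) (fun a => g (a ∪ b')) (fun _ => hf _)
      (fun _ => hg _)
    rw [Ex_insert hv, fp_union hd p f, fp_union hd p g]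
    refine (fp_one h0 h1 hm p0 p1 B _ _ (fun b => Ex_nonneg p0 p1 fun _ _ => hf _)
      (fun b => Ex_nonneg p0 p1 fun _ _ => hg _)).trans
      (add_le_add (mul_le_mul_of_nonneg_left ?_ (by linarith))
        (mul_le_mul_of_nonneg_left ?_ h0.le))
    · refine (Ex_mono p0 p1 fun b _ => I b b).trans (le_of_eq ?_)
      rw [fp_comm]
      refine Ex_congr fun U hU => ?_
      rw [fp_union hd]
      refine Ex_congr fun b hb => Ex_congr fun a ha => ?_
      rw [fp_union hd, fp_comm]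
      refine Ex_congr fun a' ha' => ?_
      rw [← Ex_const B p (f (a ∪ b) ^ (m + 1) * g (mix top U a a' ∪ b) ^ (m + 1))]
      refine Ex_congr fun b' hb' => ?_
      congr 3
      ext e
      have vU : v ∉ U := fun h => hv (hU h)
      have k1 : e ∈ b → top e ∉ U := fun h => hB e (hb h) ▸ vU
      have k2 : e ∈ b' → top e ∉ U := fun h => hB e (hb' h) ▸ vU
      simp only [mem_mix, mem_union]
      tauto
    · rw [← Ex_mul_right]
      simp only [← Ex_mul_left]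
      refine (Ex_mono p0 p1 fun b _ => Ex_mono p0 p1 fun b' _ => I b b').trans (le_of_eq ?_)
      rw [Ex_congr (E := B) (p := p) fun b _ => fp_comm B T p θ _, fp_comm]
      refine Ex_congr fun U hU => ?_
      rw [fp_union hd]
      refine Ex_congr fun b hb => ?_
      rw [fp_comm]
      refine Ex_congr fun a ha => ?_
      rw [fp_union hd]
      refine Ex_congr fun b' hb' => Ex_congr fun a' ha' => ?_
      congr 3
      ext e
      have k1 : e ∈ b → top e = v := fun h => hB e (hb h)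
      have k2 : e ∈ b' → top e = v := fun h => hB e (hb' h)
      have k3 : e ∈ a → ¬ top e = v := fun h k => hv (k ▸ hA e (ha h))
      have k4 : e ∈ a' → ¬ top e = v := fun h k => hv (k ▸ hA e (ha' h))
      simp only [mem_mix, mem_union, mem_insert]
      tauto

lemma fp_marg (top : ι → κ) (U : Finset κ) (p : ℝ) (E : Finset ι) (h : Finset ι → ℝ) :
    (Ex E p fun ω => Ex E p fun ω' => h (mix top U ω ω')) = Ex E p h := by
  obtain ⟨A, B, hd, rfl, hA, hB⟩ : ∃ A B : Finset ι, Disjoint A B ∧ E = A ∪ B ∧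
      (∀ e ∈ A, top e ∈ U) ∧ ∀ e ∈ B, top e ∉ U := by
    refine ⟨E.filter fun e => top e ∈ U, E.filter fun e => top e ∉ U, ?_, ?_,
      fun e he => (mem_filter.1 he).2, fun e he => (mem_filter.1 he).2⟩
    · exact disjoint_left.2 fun e a b => (mem_filter.1 b).2 (mem_filter.1 a).2
    · ext e
      simp only [mem_union, mem_filter]
      tauto
  rw [fp_union hd, fp_union hd p h]
  refine Ex_congr fun b hb => ?_
  rw [← Ex_const A p (Ex A p fun a => h (a ∪ b))]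
  refine Ex_congr fun a ha => ?_
  rw [fp_union hd, ← Ex_const B p (Ex A p fun a => h (a ∪ b))]
  refine Ex_congr fun b' hb' => Ex_congr fun a' ha' => ?_
  congr 1
  ext e
  have k1 : e ∈ b → top e ∉ U := fun h => hB e (hb h)
  have k2 : e ∈ b' → top e ∉ U := fun h => hB e (hb' h)
  have k3 : e ∈ a → top e ∈ U := fun h => hA e (ha h)
  have k4 : e ∈ a' → top e ∈ U := fun h => hA e (ha' h)
  simp only [mem_mix, mem_union]
  tauto

lemma fp_two (T : Finset κ) (θ : ℝ) : (Ex T θ fun U => (2 : ℝ) ^ U.card) = (1 + θ) ^ T.card := by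
  induction T using Finset.induction_on with
  | empty => simp [Ex_empty]
  | insert v T hv ih =>
    rw [Ex_insert hv, ih, card_insert_of_notMem hv,
      Ex_congr (g := fun U => 2 * (2 : ℝ) ^ U.card) fun U hU => by
        rw [card_insert_of_notMem fun h => hv (hU h), pow_succ, mul_comm], Ex_mul_left, ih]
    ring

lemma fp_size (T : Finset κ) {θ : ℝ} (h0 : 0 ≤ θ) (h1 : θ ≤ 1) :
    (Ex T θ fun U => ind (2 * θ * T.card < U.card)) ≤ Real.exp (-(θ * T.card / 4)) := by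
  have l2 : (5 / 8 : ℝ) ≤ Real.log 2 := by linarith [Real.log_two_gt_d9]
  have hN : (0 : ℝ) ≤ θ * T.card := by positivity
  calc (Ex T θ fun U => ind (2 * θ * T.card < U.card))
      ≤ Ex T θ fun U => Real.exp (-(5 / 4 * (θ * T.card))) * (2 : ℝ) ^ U.card := by
        refine Ex_mono h0 h1 fun U _ => ind_le_of (by positivity) fun h => ?_
        rw [← Real.exp_log (show (0 : ℝ) < 2 by norm_num), ← Real.exp_nat_mul, ← Real.exp_add]
        refine Real.one_le_exp ?_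
        have : (U.card : ℝ) * (5 / 8) ≤ U.card * Real.log 2 := by gcongr
        nlinarith
    _ = Real.exp (-(5 / 4 * (θ * T.card))) * (1 + θ) ^ T.card := by rw [Ex_mul_left, fp_two]
    _ ≤ Real.exp (-(5 / 4 * (θ * T.card))) * Real.exp θ ^ T.card := by
        gcongr
        linarith [Real.add_one_le_exp θ]
    _ = _ := by
        rw [← Real.exp_nat_mul, ← Real.exp_add]
        congr 1
        ring

end Pool.Agent.FS.FivePoint
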