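import Pool.Agent.Lib.MP_b735d7_co.GReal
import Pool.Agent.FS.FivePoint.RH

/-!
Changing the edges whose upper end lies in a set `U` raises the dimension by at most four, if the
part of the new graph below the points above `U` has no component with two cycles.
-/

namespace Pool.Agent.FS.FivePoint

open Finset Pool.Agent.Lib.MP_58a483_pr.H80 Pool.Agent.Lib.MP_b735d7_co

/-- the set `S` meets `U` -/
def Hit {n : ℕ} (U S : Finset (Fin n)) : Prop := ∃ z ∈ S, z ∈ U

lemma fp_hit_mono {n : ℕ} (U : Finset (Fin n)) (S T : Finset (Fin n)) (h : S ⊆ T) (k : Hit U S) :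
    Hit U T := by
  obtain ⟨z, z1, z2⟩ := k
  exact ⟨z, h z1, z2⟩

lemma fp_dn_sub {n : ℕ} {G : SimpleGraph (Fin n)} {x y : Fin n} (h : x < y) (k : G.Adj x y) :
    dn G x ⊆ dn G y := fun _ hz => mem_dn.2 ((mem_dn.1 hz).trans (le_of_adj h k))

theorem fp_det {n : ℕ} (G G' : SimpleGraph (Fin n)) (U : Finset (Fin n))
    (h : ∀ x y, x < y → y ∉ U → (G.Adj x y ↔ G'.Adj x y))
    (hb : ∀ e, ¬ Bicyc (restr G' (Hit U)) e) : orderDim G' ≤ orderDim G + 4 := by
  classical
  obtain ⟨L, hL⟩ : Realized G (orderDim G) :=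
    Nat.sInf_mem (s := {d | Realized G d}) (exists_realized G)
  generalize orderDim G = d at L hL ⊢
  have key : ∀ k : Fin d, ∃ ρ : Fin n → ℕ, ∀ a b, (L k).lt a b → ρ a < ρ b := fun k =>
    @rank_card (Fin n) (Fin n) _ (L k) id
  choose ρ hρ using key
  have tri : ∀ (k : Fin d) (a b : Fin n), (L k).lt a b ∨ a = b ∨ (L k).lt b a := fun k a b =>
    @lt_trichotomy (Fin n) (L k) a b
  have big : ∀ k v, ρ k v < univ.sup (ρ k) + 1 := fun k v =>
    Nat.lt_succ_of_le (le_sup (f := ρ k) (mem_univ v))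
  have nU : ∀ y, ¬ Hit U (dn G' y) → y ∉ U := fun y hy k => hy ⟨y, mem_dn.2 Le.rfl, k⟩
  have tr : ∀ a b, Below G a b → ¬ Hit U (dn G' b) → Below G' a b := by
    intro a b hab
    unfold Below at hab
    induction hab with
    | single k => exact fun hy => below_of_adj k.1 ((h _ _ k.1 (nU _ hy)).1 k.2)
    | tail _ k ih =>
      intro hy
      have k2 := (h _ _ k.1 (nU _ hy)).1 k.2
      exact Relation.TransGen.tail (ih fun e => hy (fp_hit_mono U _ _ (fp_dn_sub k.1 k2) e))
        ⟨k.1, k2⟩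
  obtain ⟨g, g1, g2⟩ := GReal_four G' (Hit U) (realized_nobic hb)
  refine dim_le (GReal_of_fun (ι := Fin d ⊕ Fin 4) (by omega) (by simp)
    (Sum.elim (fun k v => if Hit U (dn G' v) then univ.sup (ρ k) + 1 else ρ k v) g) ?_
    fun a b hab hn => ?_)
  · rintro (k | k) x y hxy ha
    · simp only [Sum.elim_inl]
      by_cases hy : Hit U (dn G' y)
      · rw [if_pos hy]
        split_ifs
        · exact le_rfl
        · exact (big k x).le
      · have hx : ¬ Hit U (dn G' x) := fun e => hy (fp_hit_mono U _ _ (fp_dn_sub hxy ha) e)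
        rw [if_neg hx, if_neg hy]
        exact (hρ k _ _ ((hL x y).1 (below_of_adj hxy ((h _ _ hxy (nU _ hy)).2 ha)) k)).le
    · exact g1 k x y hxy ha
  · by_cases hy : Hit U (dn G' b)
    · obtain ⟨q, hq⟩ := g2 a b hab hn hy
      exact ⟨Sum.inr q, hq⟩
    · have h1 : ¬ Below G a b := fun e => hn (tr a b e hy)
      rw [hL] at h1
      push Not at h1
      obtain ⟨k, hk⟩ := h1
      refine ⟨Sum.inl k, ?_⟩
      simp only [Sum.elim_inl]
      rw [if_neg hy]
      split_ifs
      · exact big k b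
      · rcases tri k a b with u | u | u
        · exact absurd u hk
        · exact absurd u hab
        · exact hρ _ _ _ u

/-- the upper end of an edge -/
def topE {n : ℕ} (e : Sym2 (Fin n)) : Fin n := Sym2.lift ⟨fun a b => max a b, max_comm⟩ e

lemma fp_mix_adj {n : ℕ} (U : Finset (Fin n)) (ω ω' : Finset (Sym2 (Fin n))) (x y : Fin n)
    (hxy : x < y) (hy : y ∉ U) : (gr ω).Adj x y ↔ (gr (mix topE U ω ω')).Adj x y := by
  have e : topE s(x, y) = y := by
    simp only [topE, Sym2.lift_mk]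
    exact max_eq_right hxy.le
  rw [gr_adj, gr_adj, mem_mix, e]
  tauto

theorem fp_prod {n m k : ℕ} {θ p η : ℝ} (h0 : 0 < θ) (h1 : θ ≤ 1)
    (hm : (m : ℝ) + 1 ≤ 2 * θ ^ 2 * (m : ℝ) ^ 2) (p0 : 0 ≤ p) (p1 : p ≤ 1)
    (hη : ∀ U : Finset (Fin n), (U.card : ℝ) ≤ 2 * θ * n →
      Pr n p (fun G => ∃ e, Bicyc (restr G (Hit U)) e) ≤ η) :
    Pr n p (fun G => orderDim G ≤ k) ^ (m + 1) * Pr n p (fun G => k + 5 ≤ orderDim G) ^ (m + 1) ≤
      Real.exp (-(θ * n / 4)) + η := by
  have η0 : 0 ≤ η := (Pr_nonneg p0 p1 _).trans (hη ∅ (by simp; positivity))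
  have r := fp_rh h0 h1 hm p0 p1 topE (univ : Finset (Fin n)) (EE n) (fun _ _ => mem_univ _)
    (fun ω => ind (orderDim (gr ω) ≤ k)) (fun ω => ind (k + 5 ≤ orderDim (gr ω)))
    (fun _ => ind_nonneg _) (fun _ => ind_nonneg _)
  have s := fp_size (univ : Finset (Fin n)) h0.le h1
  rw [card_univ, Fintype.card_fin] at s
  refine r.trans (le_trans ?_ (add_le_add s (Ex_const (univ : Finset (Fin n)) θ η).le))
  rw [← Ex_add]
  refine Ex_mono h0.le h1 fun U _ => ?_
  have pt : (Ex (EE n) p fun ω => Ex (EE n) p fun ω' => ind (orderDim (gr ω) ≤ k) ^ (m + 1) *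
      ind (k + 5 ≤ orderDim (gr (mix topE U ω ω'))) ^ (m + 1)) ≤
      Pr n p (fun G => ∃ e, Bicyc (restr G (Hit U)) e) := by
    unfold Pr
    rw [← fp_marg topE U p (EE n) fun ω => ind (∃ e, Bicyc (restr (gr ω) (Hit U)) e)]
    refine Ex_mono p0 p1 fun ω _ => Ex_mono p0 p1 fun ω' _ => ?_
    by_cases a : orderDim (gr ω) ≤ k
    · by_cases b : k + 5 ≤ orderDim (gr (mix topE U ω ω'))
      · rw [ind_pos a, ind_pos b, ind_pos]
        · simp
        · by_contra hn
          have := fp_det (gr ω) _ U (fp_mix_adj U ω ω') fun e he => hn ⟨e, he⟩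
          omega
      · rw [ind_neg b, zero_pow (by omega), mul_zero]
        exact ind_nonneg _
    · rw [ind_neg a, zero_pow (by omega), zero_mul]
      exact ind_nonneg _
  refine pt.trans ?_
  by_cases hU : 2 * θ * n < (U.card : ℝ)
  · rw [ind_pos hU]
    have : Pr n p (fun G => ∃ e, Bicyc (restr G (Hit U)) e) ≤ 1 := by
      unfold Pr
      rw [← Ex_const (EE n) p 1]
      exact Ex_mono p0 p1 fun _ _ => ind_le_one _
    linarith
  · rw [ind_neg hU, zero_add]
    exact hη U (not_lt.1 hU)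

end Pool.Agent.FS.FivePoint
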