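import Pool.Agent.Lib.MP_b735d7_co.GUp
import Pool.Agent.FS.FivePoint.Det

/-!
The part below the points above a fixed set of small density has no component with two cycles.
-/

namespace Pool.Agent.FS.FivePoint

open Finset Filter Topology Pool.Agent.Lib.MP_58a483_pr.H80 Pool.Agent.Lib.MP_b735d7_co

lemma fp_core {n k m j : ℕ} (hk : 0 < k) {p s : ℝ} (h0 : 0 ≤ p) (h1 : p ≤ 1 / 2)
    (U : Finset (Fin n)) (hU : (U.card : ℝ) ≤ s) :
    Pr n p (fun G => ∃ e, Bicyc (restr G (Hit U)) e) ≤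
      n * ((n * (((m + 2).factorial : ℝ) * (1 + ((m : ℝ) + 2) * p) ^ n / (k : ℝ) ^ m) +
        (k : ℝ) ^ 2 * (s * (1 + n * (p * (1 + p) ^ n)))) *
          (2 * (p * (1 + p) ^ n) + n * (p * (1 + p) ^ n) ^ 2)) ^ j +
      4 * p ^ 2 * n * (2 * (1 + 2 * p) ^ (2 * n)) ^ (16 * j + 9) := by
  have h1' : p ≤ 1 := by linarith
  have hβ : ∑ y : Fin n, Ex (EE n) p
      (fun ω => ((dn (gr ω) y).card : ℝ) ^ 2 * ind (Hit U (dn (gr ω) y))) ≤
      n * (((m + 2).factorial : ℝ) * (1 + ((m : ℝ) + 2) * p) ^ n / (k : ℝ) ^ m) +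
        (k : ℝ) ^ 2 * (s * (1 + n * (p * (1 + p) ^ n))) := by
    have e1 : ∀ y : Fin n, Ex (EE n) p
        (fun ω => ((dn (gr ω) y).card : ℝ) ^ 2 * ind (Hit U (dn (gr ω) y))) ≤
        ((m + 2).factorial : ℝ) * (1 + ((m : ℝ) + 2) * p) ^ n / (k : ℝ) ^ m +
        (k : ℝ) ^ 2 * ∑ z ∈ U, (ind (z = y) + p * (1 + p) ^ n) := by
      intro y
      have h2 : (0 : ℝ) ≤ (k : ℝ) ^ 2 := by positivity
      refine le_trans ?_ (add_le_add (ex_tail (m := m) hk h0 h1' y) (mul_le_mul_of_nonneg_left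
        (sum_le_sum fun z _ => GChP_pr_le h0 h1' z y) h2))
      rw [← Ex_sum, ← Ex_mul_left, ← Ex_add]
      refine Ex_mono h0 h1' fun ω _ => ?_
      have nn : 0 ≤ ∑ z ∈ U, ind (Le (gr ω) z y) := sum_nonneg fun _ _ => ind_nonneg _
      have hi : ind (Hit U (dn (gr ω) y)) ≤ ∑ z ∈ U, ind (Le (gr ω) z y) := by
        refine le_trans (ind_mono ?_) (ind_exists_le U _)
        rintro ⟨z, z1, z2⟩
        exact ⟨z, z2, mem_dn.1 z1⟩
      by_cases c1 : k < (dn (gr ω) y).card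
      · rw [ind_pos c1]
        have := mul_le_mul_of_nonneg_left (ind_le_one (Hit U (dn (gr ω) y)))
          (sq_nonneg ((dn (gr ω) y).card : ℝ))
        linarith [mul_nonneg h2 nn]
      · rw [ind_neg c1, mul_zero, zero_add]
        have : ((dn (gr ω) y).card : ℝ) ≤ k := by exact_mod_cast not_lt.1 c1
        have h3 : ((dn (gr ω) y).card : ℝ) ^ 2 ≤ (k : ℝ) ^ 2 := by gcongr
        exact mul_le_mul h3 hi (ind_nonneg _) h2
    refine (sum_le_sum fun y _ => e1 y).trans ?_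
    rw [sum_add_distrib, ← mul_sum, sum_const, card_univ, Fintype.card_fin, nsmul_eq_mul, sum_comm]
    simp only [sum_add_distrib, GChP_sum_eq, sum_const, card_univ, Fintype.card_fin, nsmul_eq_mul]
    have h3 : (U.card : ℝ) * 1 + U.card * (n * (p * (1 + p) ^ n)) ≤
        s * (1 + n * (p * (1 + p) ^ n)) := by
      rw [← mul_add]
      gcongr
    gcongr
  have b1 := pr_chain h0 h1 (fp_hit_mono U) hβ j
  have b2 := pr_bicV (n := n) (v := 8 * (2 * j) + 8) h0 h1'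
  rw [show 8 * (2 * j) + 8 + 1 = 16 * j + 9 by ring] at b2
  have b3 : Pr n p (fun G => Ind G (Hit U) (2 * j)) ≤
      ∑ z : Fin n, Ex (EE n) p (fun ω => ind (Chain (Hit U) j z ω)) := by
    unfold Pr
    rw [← Ex_sum]
    refine Ex_mono h0 h1' fun ω _ => le_trans (ind_mono fun h => ?_) (ind_exists_le univ _)
    obtain ⟨z, hz⟩ := chain_of_ind h
    exact ⟨z, mem_univ _, hz⟩
  refine le_trans (Pr_mono h0 h1'
    (B := fun G => Ind G (Hit U) (2 * j) ∨ BicycV G (8 * (2 * j) + 8)) fun G hG => ?_) ?_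
  · by_contra hn
    rw [not_or] at hn
    obtain ⟨e, he⟩ := hG
    exact GUp_nobic hn.1 hn.2 e he
  · have := Pr_or h0 h1' (fun G : SimpleGraph (Fin n) => Ind G (Hit U) (2 * j))
      (fun G => BicycV G (8 * (2 * j) + 8))
    linarith

lemma fp_fin {n j m k B : ℕ} {c E D K θ : ℝ} (hc : 0 ≤ c) (hE : E = Real.exp c)
    (hD : 2 * (E ^ 2) ^ 2 ≤ D) (hB : 2 * D ^ 16 ≤ B) (hK : 2 * (c * E) + (c * E) ^ 2 ≤ K)
    (K0 : 0 < K) (hm : (((m : ℝ) + 2) * E) ^ 2 / 2 ^ m ≤ 1 / (4 * B * K))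
    (k1 : 2 * ((m : ℝ) + 2) * E ≤ k) (θ0 : 0 < θ)
    (θ2 : (k : ℝ) ^ 2 * (2 * θ * (1 + c * E)) ≤ 1 / (4 * B * K)) (n1 : 1 ≤ n)
    (p1 : c / n ≤ 1 / 2) (hlt : n < B ^ (j + 1)) (hle : B ^ j ≤ n) (U : Finset (Fin n))
    (hU : (U.card : ℝ) ≤ 2 * θ * n) :
    Pr n (c / n) (fun G => ∃ e, Bicyc (restr G (Hit U)) e) ≤
      ((B : ℝ) + 4 * c ^ 2 * D ^ 9) * (1 / 2 : ℝ) ^ j := by
  have E1 : 1 ≤ E := hE ▸ Real.one_le_exp hc
  have D1 : 1 ≤ D := by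
    have : 1 ≤ (E ^ 2) ^ 2 := one_le_pow₀ (one_le_pow₀ E1)
    linarith
  have B2 : (2 : ℝ) ≤ B := by
    have : 1 ≤ D ^ 16 := one_le_pow₀ D1
    linarith
  have k0' : (0 : ℝ) < k := lt_of_lt_of_le (by positivity) k1
  have k0 : 0 < k := by exact_mod_cast k0'
  have hlt' : (n : ℝ) ≤ (B : ℝ) ^ (j + 1) := by exact_mod_cast hlt.le
  have hle' : (B : ℝ) ^ j ≤ n := by exact_mod_cast hle
  have n0 : (0 : ℝ) < n := by exact_mod_cast n1
  have p0 : 0 ≤ c / n := by positivity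
  refine (fp_core (m := m) (j := j) k0 p0 p1 U hU).trans ?_
  have e1 : (1 + c / n) ^ n ≤ E := by
    have := GUp_pow n1 hc zero_le_one
    rwa [one_mul, one_mul, ← hE] at this
  have e2 : (1 + ((m : ℝ) + 2) * (c / n)) ^ n ≤ E ^ (m + 2) := by
    refine (GUp_pow n1 hc (by positivity)).trans (le_of_eq ?_)
    rw [hE, ← Real.exp_nat_mul]
    push_cast
    rfl
  have e3 : 2 * (1 + 2 * (c / n)) ^ (2 * n) ≤ D := by
    have a : (1 + 2 * (c / n)) ^ n ≤ E ^ 2 := by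
      refine (GUp_pow n1 hc (by positivity)).trans (le_of_eq ?_)
      rw [hE, ← Real.exp_nat_mul]
      push_cast
      rfl
    refine le_trans ?_ hD
    rw [mul_comm 2 n, pow_mul]
    gcongr
  have e4 := (GUp_tail (by linarith) k1 (by positivity) e2).trans hm
  have a : c / n * (1 + c / n) ^ n ≤ c * E / n := by
    calc c / n * (1 + c / n) ^ n ≤ c / n * E := by gcongr
      _ = _ := by ring
  have e6 : n * (((m + 2).factorial : ℝ) * (1 + ((m : ℝ) + 2) * (c / n)) ^ n / (k : ℝ) ^ m) +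
      (k : ℝ) ^ 2 * (2 * θ * n * (1 + n * (c / n * (1 + c / n) ^ n))) ≤
      n * (1 / (2 * B * K)) := by
    calc _ ≤ n * (1 / (4 * B * K)) + (k : ℝ) ^ 2 * (2 * θ * n * (1 + n * (c * E / n))) := by
          gcongr
      _ = n * (1 / (4 * B * K)) + n * ((k : ℝ) ^ 2 * (2 * θ * (1 + c * E))) := by field_simp
      _ ≤ n * (1 / (4 * B * K)) + n * (1 / (4 * B * K)) := by gcongr
      _ = _ := by field_simp; norm_num
  have e7 : 2 * (c / n * (1 + c / n) ^ n) + n * (c / n * (1 + c / n) ^ n) ^ 2 ≤ K / n := by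
    calc _ ≤ 2 * (c * E / n) + n * (c * E / n) ^ 2 := by gcongr
      _ = (2 * (c * E) + (c * E) ^ 2) / n := by field_simp
      _ ≤ _ := by gcongr
  have e8 : (B : ℝ) * (n * (1 / (2 * B * K)) * (K / n)) = 1 / 2 := by field_simp
  have e9 : D ^ 16 / (B : ℝ) ≤ 1 / 2 := by
    rw [div_le_iff₀ (by positivity)]
    linarith
  rw [add_mul (B : ℝ)]
  refine add_le_add ?_ ?_
  · calc _ ≤ (B : ℝ) ^ (j + 1) * (n * (1 / (2 * B * K)) * (K / n)) ^ j := by gcongr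
      _ = (B : ℝ) * ((B : ℝ) * (n * (1 / (2 * B * K)) * (K / n))) ^ j := by
          rw [mul_pow (B : ℝ), pow_succ]
          ring
      _ = _ := by rw [e8]
  · calc _ ≤ 4 * (c / n) ^ 2 * n * D ^ (16 * j + 9) := by gcongr
      _ = 4 * c ^ 2 * D ^ 9 * ((D ^ 16) ^ j / n) := by
          rw [pow_add, pow_mul]
          field_simp
      _ ≤ 4 * c ^ 2 * D ^ 9 * ((D ^ 16) ^ j / (B : ℝ) ^ j) := by gcongr
      _ ≤ _ := by
          rw [← div_pow]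
          gcongr

theorem fp_bad {n j s T : ℕ} {c : ℝ} (hT : T = 2 ^ s) (s1 : 1 ≤ s) (hc : 0 ≤ c) (hs : c ≤ s)
    (n1 : 1 ≤ n) (p1 : c / n ≤ 1 / 2) (hlt : n < (T ^ 145) ^ (j + 1)) (hle : (T ^ 145) ^ j ≤ n)
    (U : Finset (Fin n)) (hU : (U.card : ℝ) ≤ 2 * (1 / (T : ℝ) ^ 190) * n) :
    Pr n (c / n) (fun G => ∃ e, Bicyc (restr G (Hit U)) e) ≤ (T : ℝ) ^ 146 * (1 / 2 : ℝ) ^ j := by
  obtain ⟨E, hE⟩ : ∃ E, E = Real.exp c := ⟨_, rfl⟩
  have E1 : 1 ≤ E := hE ▸ Real.one_le_exp hc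
  have s1' : (1 : ℝ) ≤ s := by exact_mod_cast s1
  have T2 : 2 ≤ T := by
    rw [hT]
    exact le_self_pow₀ (by norm_num) (by omega)
  have t2 : (2 : ℝ) ≤ T := by exact_mod_cast T2
  have t0 : (0 : ℝ) < T := by linarith
  have t1 : (1 : ℝ) ≤ T := by linarith
  have st : (s : ℝ) ≤ T := by
    rw [hT]
    exact_mod_cast (Nat.lt_two_pow_self).le
  have ct : c ≤ T := hs.trans st
  have Et : E ≤ (T : ℝ) ^ 2 := by
    calc E ≤ Real.exp s := hE ▸ Real.exp_le_exp.2 hs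
      _ = Real.exp 1 ^ s := by rw [← Real.exp_nat_mul, mul_one]
      _ ≤ 4 ^ s := by
        gcongr
        linarith [Real.exp_one_lt_d9]
      _ = (T : ℝ) ^ 2 := by
        rw [hT]
        push_cast
        rw [← pow_mul, mul_comm, pow_mul]
        norm_num
  have dbl : ∀ a b : ℕ, a + 1 = b → 2 * (T : ℝ) ^ a ≤ (T : ℝ) ^ b := fun a b h => by
    rw [← h, pow_succ, mul_comm]
    gcongr
  have mono : ∀ a b : ℕ, a ≤ b → (T : ℝ) ^ a ≤ (T : ℝ) ^ b := fun a b h => pow_le_pow_right₀ t1 h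
  obtain ⟨m, hm⟩ : ∃ m : ℕ, m = 330 * s := ⟨_, rfl⟩
  have tp : (2 : ℝ) ^ m = (T : ℝ) ^ 330 := by
    rw [hT, hm]
    push_cast
    rw [← pow_mul, mul_comm]
  have m1 : (m : ℝ) + 2 ≤ 332 * s := by
    rw [hm]
    push_cast
    linarith
  have t9 : (512 : ℝ) ≤ (T : ℝ) ^ 9 := by
    calc (512 : ℝ) = 2 ^ 9 := by norm_num
      _ ≤ (T : ℝ) ^ 9 := by gcongr
  have m2 : ((m : ℝ) + 2) * E ≤ (T : ℝ) ^ 12 := by
    calc ((m : ℝ) + 2) * E ≤ (332 * s) * E := by gcongr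
      _ ≤ ((T : ℝ) ^ 9 * T) * (T : ℝ) ^ 2 := by
        gcongr
        linarith
      _ = (T : ℝ) ^ 12 := by ring
  obtain ⟨k, k1, k2⟩ : ∃ k : ℕ, 2 * ((m : ℝ) + 2) * E ≤ k ∧ (k : ℝ) ≤ 2 * ((m : ℝ) + 2) * E + 1 :=
    ⟨⌈2 * ((m : ℝ) + 2) * E⌉₊, Nat.le_ceil _, (Nat.ceil_lt_add_one (by positivity)).le⟩
  have k3 : (k : ℝ) ≤ (T : ℝ) ^ 14 := by
    have a : (1 : ℝ) ≤ (T : ℝ) ^ 12 := one_le_pow₀ t1
    linarith [dbl 12 13 rfl, dbl 13 14 rfl]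
  have cE : c * E ≤ (T : ℝ) ^ 3 := by
    calc c * E ≤ T * (T : ℝ) ^ 2 := by gcongr
      _ = _ := by ring
  have q : 1 / (T : ℝ) ^ 155 ≤ 1 / (4 * ((T ^ 145 : ℕ) : ℝ) * (T : ℝ) ^ 8) := by
    push_cast
    refine one_div_le_one_div_of_le (by positivity) ?_
    have : 4 * (T : ℝ) ^ 145 * (T : ℝ) ^ 8 = 4 * (T : ℝ) ^ 153 := by ring
    linarith [dbl 153 154 rfl, dbl 154 155 rfl]
  refine (fp_fin (B := T ^ 145) (D := (T : ℝ) ^ 9) (K := (T : ℝ) ^ 8) (m := m) hc hE ?_ ?_ ?_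
    (by positivity) (le_trans ?_ q) k1 (by positivity) (le_trans ?_ q) n1 p1 hlt hle U hU).trans ?_
  · calc 2 * (E ^ 2) ^ 2 ≤ 2 * (((T : ℝ) ^ 2) ^ 2) ^ 2 := by gcongr
      _ = 2 * (T : ℝ) ^ 8 := by ring
      _ ≤ _ := dbl 8 9 rfl
  · push_cast
    rw [← pow_mul]
    exact dbl 144 145 rfl
  · have a : (c * E) ^ 2 ≤ (T : ℝ) ^ 6 := by
      calc (c * E) ^ 2 ≤ ((T : ℝ) ^ 3) ^ 2 := by gcongr
        _ = _ := by ring
    linarith [dbl 3 4 rfl, dbl 7 8 rfl, mono 4 7 (by norm_num), mono 6 7 (by norm_num)]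
  · rw [tp]
    calc _ ≤ ((T : ℝ) ^ 12) ^ 2 / (T : ℝ) ^ 330 := by gcongr
      _ = 1 / (T : ℝ) ^ 306 := by field_simp
      _ ≤ _ := one_div_le_one_div_of_le (by positivity) (mono _ _ (by norm_num))
  · have a : 2 * (1 + c * E) ≤ (T : ℝ) ^ 5 := by
      linarith [dbl 3 4 rfl, dbl 4 5 rfl, one_le_pow₀ (n := 3) t1]
    calc (k : ℝ) ^ 2 * (2 * (1 / (T : ℝ) ^ 190) * (1 + c * E))
        = (k : ℝ) ^ 2 * (2 * (1 + c * E)) / (T : ℝ) ^ 190 := by ring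
      _ ≤ ((T : ℝ) ^ 14) ^ 2 * (T : ℝ) ^ 5 / (T : ℝ) ^ 190 := by gcongr
      _ = 1 / (T : ℝ) ^ 157 := by field_simp
      _ ≤ _ := one_div_le_one_div_of_le (by positivity) (mono _ _ (by norm_num))
  · have a : 4 * c ^ 2 * ((T : ℝ) ^ 9) ^ 9 ≤ (T : ℝ) ^ 145 := by
      calc 4 * c ^ 2 * ((T : ℝ) ^ 9) ^ 9 ≤ 4 * (T : ℝ) ^ 2 * ((T : ℝ) ^ 9) ^ 9 := by gcongr
        _ = 4 * (T : ℝ) ^ 83 := by ring
        _ ≤ _ := by linarith [dbl 83 84 rfl, dbl 84 85 rfl, mono 85 145 (by norm_num)]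
    push_cast
    gcongr
    linarith [dbl 145 146 rfl]

end Pool.Agent.FS.FivePoint
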