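import Pool.Agent.FS.FivePoint.Bad

/-!
The dimension of the random graph order with edge probability `c n / n` is concentrated on five
consecutive values, for `c n ≤ log log n / 800`.
-/

namespace Pool.Agent.FS.FivePoint

open Finset Filter Topology Pool.Agent.Lib.MP_58a483_pr.H80 Pool.Agent.Lib.MP_b735d7_co

lemma fp_all (n : ℕ) (p : ℝ) : ∃ k : ℕ, Pr n p (fun G => orderDim G ≤ k) = 1 := by
  refine ⟨(EE n).powerset.sup fun ω => orderDim (gr ω), ?_⟩
  unfold Pr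
  rw [← Ex_const (EE n) p 1]
  exact Ex_congr fun ω hω =>
    ind_pos (le_sup (f := fun ω => orderDim (gr ω)) (mem_powerset.2 hω))

lemma fp_win {n : ℕ} {p ε : ℝ} (p0 : 0 ≤ p) (p1 : p ≤ 1) (e0 : 0 ≤ ε) (e1 : ε < 1)
    (h : ∀ k : ℕ, Pr n p (fun G => orderDim G ≤ k) * Pr n p (fun G => k + 5 ≤ orderDim G) ≤
      ε * ε) :
    ∃ k : ℕ, Pr n p (fun G => ¬ (k ≤ orderDim G ∧ orderDim G ≤ k + 4)) ≤ 2 * ε := by
  obtain ⟨k, hk⟩ : ∃ k, k = sInf {j : ℕ | ε < Pr n p (fun G => orderDim G ≤ j)} := ⟨_, rfl⟩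
  have lo : Pr n p (fun G => orderDim G < k) ≤ ε := by
    rcases Nat.eq_zero_or_pos k with h0 | h0
    · have : (Pr n p fun G => orderDim G < k) = 0 := by
        unfold Pr
        rw [← Ex_const (EE n) p 0]
        exact Ex_congr fun ω _ => ind_neg (by omega)
      rw [this]
      exact e0
    · have a : k - 1 ∉ {j : ℕ | ε < Pr n p (fun G => orderDim G ≤ j)} :=
        Nat.notMem_of_lt_sInf (by omega)
      exact (Pr_mono p0 p1 fun G hG => by omega).trans (not_lt.1 a)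
  have hi : Pr n p (fun G => k + 5 ≤ orderDim G) ≤ ε := by
    have a : k ∈ {j : ℕ | ε < Pr n p (fun G => orderDim G ≤ j)} := by
      rw [hk]
      refine Nat.sInf_mem ?_
      obtain ⟨j, hj⟩ := fp_all n p
      exact ⟨j, by rw [Set.mem_ofPred_eq, hj]; exact e1⟩
    by_contra hx
    exact absurd (h k) (not_le.2 (mul_lt_mul'' a (not_le.1 hx) e0 e0))
  refine ⟨k, (Pr_mono p0 p1 (B := fun G => orderDim G < k ∨ k + 5 ≤ orderDim G)
    fun G hG => by omega).trans ?_⟩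
  linarith [Pr_or p0 p1 (fun G : SimpleGraph (Fin n) => orderDim G < k)
    fun G => k + 5 ≤ orderDim G]

lemma fp_nat {T r j s : ℕ} (hT : T = 2 ^ s) (s1 : 1 ≤ s) (r1 : 1 ≤ r) (hj : r * T ^ 390 ≤ j) :
    2 * r * (T ^ 380 + 1) + 146 * s + 1 ≤ j ∧ 4 * T ^ 190 * j ≤ (T ^ 145) ^ j ∧
      2 * s ≤ (T ^ 145) ^ j := by
  have T2 : 2 ≤ T := by
    rw [hT]
    exact le_self_pow₀ (by norm_num) (by omega)
  have st : s ≤ T := by
    rw [hT]
    exact (Nat.lt_two_pow_self).le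
  have mono : ∀ a b : ℕ, a ≤ b → T ^ a ≤ T ^ b := fun a b h => Nat.pow_le_pow_right (by omega) h
  have t8 : 256 ≤ T ^ 8 := le_trans (by norm_num) (Nat.pow_le_pow_left T2 8)
  have a1 : T ≤ T ^ 380 := le_self_pow₀ (by omega) (by norm_num)
  have a2 : 256 * T ^ 380 ≤ T ^ 390 := by
    calc 256 * T ^ 380 ≤ T ^ 8 * T ^ 380 := by gcongr
      _ = T ^ 388 := by ring
      _ ≤ _ := mono _ _ (by norm_num)
  have j2 : 2 ≤ j := by nlinarith
  have b : 4 * T ^ 190 * j ≤ (T ^ 145) ^ j := by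
    calc 4 * T ^ 190 * j ≤ T ^ 2 * T ^ 190 * T ^ j := by
          gcongr
          · nlinarith
          · exact (Nat.lt_two_pow_self).le.trans (Nat.pow_le_pow_left T2 j)
      _ = T ^ (192 + j) := by ring
      _ ≤ T ^ (145 * j) := mono _ _ (by omega)
      _ = _ := pow_mul _ _ _
  refine ⟨?_, b, le_trans ?_ b⟩
  · generalize T ^ 380 = X at *
    generalize T ^ 390 = Y at *
    have u : r * (256 * X) ≤ r * Y := by gcongr
    have v : X ≤ r * X := Nat.le_mul_of_pos_left _ r1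
    have w : r ≤ r * X := Nat.le_mul_of_pos_right _ (by omega)
    nlinarith
  · have : T ≤ T ^ 190 := le_self_pow₀ (by omega) (by norm_num)
    generalize T ^ 190 = X at *
    nlinarith

lemma fp_step {n j r s T : ℕ} {c : ℝ} (hT : T = 2 ^ s) (s1 : 1 ≤ s) (hc : 0 ≤ c) (hs : c ≤ s)
    (r1 : 1 ≤ r) (hj : r * T ^ 390 ≤ j) (hlt : n < (T ^ 145) ^ (j + 1))
    (hle : (T ^ 145) ^ j ≤ n) : c / n ≤ 1 ∧ ∃ k : ℕ, Pr n (c / n)
      (fun G => ¬ (k ≤ orderDim G ∧ orderDim G ≤ k + 4)) ≤ 2 * (1 / 2 : ℝ) ^ r := by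
  obtain ⟨a1, a2, a3⟩ := fp_nat hT s1 r1 hj
  have n1 : 1 ≤ n := by omega
  have n0 : (0 : ℝ) < n := by exact_mod_cast n1
  have p0 : 0 ≤ c / n := by positivity
  have p1 : c / n ≤ 1 / 2 := by
    rw [div_le_iff₀ n0]
    have : ((2 * s : ℕ) : ℝ) ≤ n := by exact_mod_cast a3.trans hle
    push_cast at this
    linarith
  have T1 : 1 ≤ T := hT ▸ Nat.one_le_two_pow
  have t1 : (1 : ℝ) ≤ T := by exact_mod_cast T1
  have t0 : (0 : ℝ) < T := by linarith
  refine ⟨by linarith, fp_win p0 (by linarith) (by positivity)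
    (pow_lt_one₀ (by norm_num) (by norm_num) (by omega)) fun k => ?_⟩
  have h := fp_prod (n := n) (m := T ^ 380) (k := k) (θ := 1 / (T : ℝ) ^ 190) (by positivity)
    ((div_le_one (by positivity)).2 (one_le_pow₀ t1)) ?_ p0 (by linarith)
    (fp_bad hT s1 hc hs n1 p1 hlt hle)
  · rw [← mul_pow] at h
    refine (pow_le_pow_iff_left₀ (mul_nonneg (Pr_nonneg p0 (by linarith) _)
      (Pr_nonneg p0 (by linarith) _)) (by positivity) (Nat.succ_ne_zero (T ^ 380))).1 (h.trans ?_)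
    obtain ⟨N, hN⟩ : ∃ N, N = 2 * r * (T ^ 380 + 1) := ⟨_, rfl⟩
    have e : ((1 / 2 : ℝ) ^ r * (1 / 2 : ℝ) ^ r) ^ (T ^ 380).succ = (1 / 2 : ℝ) ^ N := by
      rw [hN, ← pow_add, ← pow_mul, two_mul]
    rw [e]
    rw [← hN] at a1
    have b1 : Real.exp (-(1 / (T : ℝ) ^ 190 * n / 4)) ≤ (1 / 2 : ℝ) ^ (N + 1) := by
      have u : (j : ℝ) ≤ 1 / (T : ℝ) ^ 190 * n / 4 := by
        have : ((4 * T ^ 190 * j : ℕ) : ℝ) ≤ n := by exact_mod_cast a2.trans hle
        push_cast at this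
        rw [one_div_mul_eq_div, div_div, le_div_iff₀ (by positivity)]
        linarith
      calc _ ≤ Real.exp (j * (-1)) := Real.exp_le_exp.2 (by linarith)
        _ = Real.exp (-1) ^ j := Real.exp_nat_mul _ _
        _ ≤ (1 / 2 : ℝ) ^ j := by
            gcongr
            rw [Real.exp_neg, one_div]
            exact inv_anti₀ (by norm_num) (by linarith [Real.add_one_le_exp 1])
        _ ≤ _ := pow_le_pow_of_le_one (by norm_num) (by norm_num) (by omega)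
    have b2 : (T : ℝ) ^ 146 * (1 / 2 : ℝ) ^ j ≤ (1 / 2 : ℝ) ^ (N + 1) := by
      have u : (T : ℝ) ^ 146 * (1 / 2 : ℝ) ^ (146 * s) = 1 := by
        rw [hT]
        push_cast
        rw [← pow_mul, mul_comm s, ← mul_pow]
        norm_num
      calc _ ≤ (T : ℝ) ^ 146 * (1 / 2 : ℝ) ^ (146 * s + (N + 1)) :=
            mul_le_mul_of_nonneg_left
              (pow_le_pow_of_le_one (by norm_num) (by norm_num) (by omega)) (by positivity)
        _ = _ := by rw [pow_add, ← mul_assoc, u, one_mul]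
    rw [pow_succ (1 / 2 : ℝ) N] at b1 b2
    linarith
  · push_cast
    have : 2 * (1 / (T : ℝ) ^ 190) ^ 2 * ((T : ℝ) ^ 380) ^ 2 = 2 * (T : ℝ) ^ 380 := by field_simp
    rw [this]
    linarith [one_le_pow₀ (n := 380) t1]

lemma fp_grow {c : ℕ → ℝ}
    (hc : ∀ᶠ n : ℕ in atTop, 0 ≤ c n ∧ c n ≤ Real.log (Real.log n) / 800) :
    Tendsto (fun n : ℕ => Nat.log ((2 ^ (⌊c n⌋₊ + 1)) ^ 145) n / (2 ^ (⌊c n⌋₊ + 1)) ^ 390)
      atTop atTop := by
  have l1 : Tendsto (fun n : ℕ => Real.log n) atTop atTop :=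
    Real.tendsto_log_atTop.comp tendsto_natCast_atTop_atTop
  have l2 : Tendsto (fun n : ℕ => Real.exp (Real.log (Real.log n) / 2)) atTop atTop :=
    Real.tendsto_exp_atTop.comp
      ((Real.tendsto_log_atTop.comp l1).atTop_div_const (by norm_num))
  refine tendsto_atTop.2 fun R => ?_
  filter_upwards [hc, l1.eventually_gt_atTop 0, l2.eventually_ge_atTop (145 * R * Real.exp 391),
    eventually_ge_atTop 1] with n h L0 hw n1
  obtain ⟨s, hs⟩ : ∃ s, s = ⌊c n⌋₊ + 1 := ⟨_, rfl⟩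
  rw [← hs]
  obtain ⟨T, hT⟩ : ∃ T : ℕ, T = 2 ^ s := ⟨_, rfl⟩
  rw [← hT]
  have T2 : 2 ≤ T := by
    rw [hT]
    exact le_self_pow₀ (by norm_num) (by omega)
  have t0 : (0 : ℝ) < T := by exact_mod_cast (by omega : 0 < T)
  have n0 : (0 : ℝ) < n := by exact_mod_cast n1
  have s2 : (s : ℝ) ≤ c n + 1 := by
    rw [hs]
    push_cast
    linarith [Nat.floor_le h.1]
  have te : (T : ℝ) ≤ Real.exp s := by
    rw [hT, ← mul_one (s : ℝ), Real.exp_nat_mul]
    push_cast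
    gcongr
    linarith [Real.add_one_le_exp 1]
  obtain ⟨w, hw'⟩ : ∃ w, w = Real.exp (Real.log (Real.log n) / 2) := ⟨_, rfl⟩
  rw [← hw'] at hw
  have w0 : 0 < w := hw' ▸ Real.exp_pos _
  have ww : w * w = Real.log n := by
    rw [hw', ← Real.exp_add, add_halves, Real.exp_log L0]
  have t391 : (T : ℝ) ^ 391 ≤ Real.exp 391 * w := by
    calc (T : ℝ) ^ 391 ≤ Real.exp s ^ 391 := by gcongr
      _ = Real.exp ((391 : ℕ) * s) := (Real.exp_nat_mul _ _).symm
      _ ≤ _ := by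
          rw [hw', ← Real.exp_add]
          refine Real.exp_le_exp.2 ?_
          push_cast
          linarith [h.1, h.2]
  refine (Nat.le_div_iff_mul_le (by positivity)).2
    (Nat.le_log_of_pow_le (one_lt_pow₀ (by omega) (by norm_num)) ?_)
  have key : ((T : ℝ) ^ 145) ^ (R * T ^ 390) ≤ n := by
    rw [← pow_mul, ← Real.exp_log n0]
    calc (T : ℝ) ^ (145 * (R * T ^ 390)) ≤ Real.exp T ^ (145 * (R * T ^ 390)) := by
          gcongr
          linarith [Real.add_one_le_exp (T : ℝ)]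
      _ = Real.exp ((145 * (R * T ^ 390) : ℕ) * T) := (Real.exp_nat_mul _ _).symm
      _ ≤ _ := by
          refine Real.exp_le_exp.2 ?_
          push_cast
          calc 145 * (R * (T : ℝ) ^ 390) * T = 145 * R * (T : ℝ) ^ 391 := by ring
            _ ≤ 145 * R * (Real.exp 391 * w) := by gcongr
            _ = 145 * R * Real.exp 391 * w := by ring
            _ ≤ w * w := by gcongr
            _ = _ := ww
  exact_mod_cast key

theorem fivePoint {c : ℕ → ℝ}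
    (hc : ∀ᶠ n : ℕ in atTop, 0 ≤ c n ∧ c n ≤ Real.log (Real.log n) / 800) :
    ∃ k : ℕ → ℕ, Tendsto (fun n : ℕ =>
      prob n (c n) {G | k n ≤ orderDim G ∧ orderDim G ≤ k n + 4}) atTop (𝓝 1) := by
  have hr := fp_grow hc
  obtain ⟨r, hr'⟩ : ∃ r : ℕ → ℕ, r = fun n : ℕ =>
    Nat.log ((2 ^ (⌊c n⌋₊ + 1)) ^ 145) n / (2 ^ (⌊c n⌋₊ + 1)) ^ 390 := ⟨_, rfl⟩
  rw [← hr'] at hr
  have h : ∀ᶠ n : ℕ in atTop, ∃ k : ℕ, (0 ≤ c n / n ∧ c n / n ≤ 1) ∧ Pr n (c n / n)
      (fun G => ¬ (k ≤ orderDim G ∧ orderDim G ≤ k + 4)) ≤ 2 * (1 / 2 : ℝ) ^ r n := by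
    filter_upwards [hc, hr.eventually_ge_atTop 1, eventually_ge_atTop 1] with n h r1 n1
    have B1 : 1 < (2 ^ (⌊c n⌋₊ + 1)) ^ 145 :=
      one_lt_pow₀ (one_lt_pow₀ (by norm_num) (by omega)) (by norm_num)
    obtain ⟨a, k, b⟩ := fp_step (n := n) (r := r n) (c := c n) (s := ⌊c n⌋₊ + 1) rfl (by omega) h.1
      (by push_cast; exact (Nat.lt_floor_add_one _).le) r1
      (by rw [hr']; exact Nat.div_mul_le_self _ _) (Nat.lt_pow_succ_log_self B1 n)
      (Nat.pow_log_le_self _ (by omega))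
    exact ⟨k, ⟨div_nonneg h.1 (Nat.cast_nonneg n), a⟩, b⟩
  obtain ⟨k, hk⟩ := h.choice
  have t : Tendsto (fun n : ℕ => 2 * (1 / 2 : ℝ) ^ r n) atTop (𝓝 0) := by
    simpa using ((tendsto_pow_atTop_nhds_zero_of_lt_one (r := (1 / 2 : ℝ)) (by norm_num)
      (by norm_num)).comp hr).const_mul 2
  have h0 : Tendsto (fun n : ℕ => Pr n (c n / n)
      fun G => ¬ (k n ≤ orderDim G ∧ orderDim G ≤ k n + 4)) atTop (𝓝 0) := by
    refine squeeze_zero' ?_ ?_ t
    · filter_upwards [hk] with n hn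
      exact Pr_nonneg hn.1.1 hn.1.2 _
    · filter_upwards [hk] with n hn
      exact hn.2
  have h1 := h0.const_sub 1
  rw [sub_zero] at h1
  refine ⟨k, h1.congr' ?_⟩
  filter_upwards [hk] with n hn
  rw [prob_eq_Pr n (c n) hn.1.1 hn.1.2, Pr_not]
  ring

end Pool.Agent.FS.FivePoint
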